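import Pool.Agent.HJI.Even

set_option autoImplicit false

/-!
# The Hales–Jewett numbers and the halving Hales–Jewett numbers interlace

For every `n ≥ 2`: `HJ_{1/2}(n) ≤ HJ(n) < HJ_{1/2}(n+1)`.

The coordinates of the points of `[n]^d` run over `Fin n = {0, …, n-1}`; `Fin.rev` is the reversal `j ↦ n-1-j`
(in the numbering `1, …, n` of the problem it is `j ↦ n+1-j`).

Proof of `HJ(n) < HJ_{1/2}(n+1)`: for every `d < HJ(n)` the cube `[n+1]^(d+1)` has a halving colouring without
monochromatic geometric line.  If `n` is odd, merge the two middle values of `[n+1]`, pull back a colouring of `[n]^d`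
and twist it by the half of the new coordinate.  If `n` is even, remove the middle value of `[n+1]`: the points of
`[n+1]^d` with a given set `I` of coordinates off the middle form a cube `[n]^I`, these cubes can be coloured
independently, and with sections of one colouring and all sign choices the signed sums are compensated down to zero off
the centre if `d ≥ n`; then one more coordinate is added.  If `d < n`, an explicit folding colouring works.
-/

namespace Pool.Agent.Results.MP_62b8ba_co.HalvingInterlace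

/-- `P 0, …, P (n-1)` are the consecutive points of a geometric line of `[n]^d`: every coordinate is constant or
equal to `j` for all `j` or equal to the reversal of `j` for all `j`, and some coordinate is not constant -/
def IsGeomLine {n d : ℕ} (P : Fin n → Fin d → Fin n) : Prop :=
  (∀ i, (∀ j j', P j i = P j' i) ∨ (∀ j, P j i = j) ∨ (∀ j, P j i = j.rev)) ∧
  ∃ i, ∃ j j', P j i ≠ P j' i

/-- some geometric line is monochromatic -/
def HasMono {n d : ℕ} (c : (Fin d → Fin n) → Bool) : Prop :=
  ∃ P : Fin n → Fin d → Fin n, IsGeomLine P ∧ ∃ b, ∀ j, c (P j) = b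

/-- the colour classes have the sizes `⌊n^d/2⌋` and `⌈n^d/2⌉` -/
def IsHalving {n d : ℕ} (c : (Fin d → Fin n) → Bool) : Prop :=
  (Set.ncard {x | c x = true} = n ^ d / 2 ∧ Set.ncard {x | c x = false} = (n ^ d + 1) / 2) ∨
  (Set.ncard {x | c x = true} = (n ^ d + 1) / 2 ∧ Set.ncard {x | c x = false} = n ^ d / 2)

/-- the dimensions in which every 2-colouring has a monochromatic geometric line -/
def HJSet (n : ℕ) : Set ℕ := {d | 1 ≤ d ∧ ∀ c : (Fin d → Fin n) → Bool, HasMono c}

/-- the dimensions in which every halving 2-colouring has a monochromatic geometric line -/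
def HJHalfSet (n : ℕ) : Set ℕ := {d | 1 ≤ d ∧ ∀ c : (Fin d → Fin n) → Bool, IsHalving c → HasMono c}

/-- the Hales–Jewett number -/
noncomputable def HJ (n : ℕ) : ℕ := sInf (HJSet n)

/-- the halving Hales–Jewett number -/
noncomputable def HJHalf (n : ℕ) : ℕ := sInf (HJHalfSet n)

open Pool.HJI in
lemma not_mono_iff {n d : ℕ} (hn : 1 ≤ n) (c : (Fin d → Fin n) → Bool) : ¬ HasMono c ↔ Proper c := by
  constructor
  · intro h P hP
    by_contra hcon
    push Not at hcon
    exact h ⟨P, hP, c (P ⟨0, by omega⟩), fun j => hcon j _⟩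
  · rintro h ⟨P, hP, b, hb⟩
    obtain ⟨j, j', hj⟩ := h P hP
    exact hj (by rw [hb, hb])

open Pool.HJI in
lemma halving_of_abs {n d : ℕ} (c : (Fin d → Fin n) → Bool) (h : |S c| ≤ 1) : IsHalving c := by
  classical
  have h1 : (Set.ncard {x | c x = true} : ℤ) + Set.ncard {x | c x = false} = n ^ d := by
    have h2 : Set.ncard {x | c x = true} = (Finset.univ.filter (fun x => c x = true)).card := by
      rw [← Set.ncard_coe_finset]; congr 1; ext x; simp
    have h3 : Set.ncard {x | c x = false} = (Finset.univ.filter (fun x => ¬ c x = true)).card := by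
      rw [← Set.ncard_coe_finset]; congr 1; ext x; simp
    rw [h2, h3]
    have h4 := Finset.card_filter_add_card_filter_not (s := (Finset.univ : Finset (Fin d → Fin n))) (fun x => c x = true)
    have h5 : (Finset.univ : Finset (Fin d → Fin n)).card = n ^ d := by simp
    rw [h5] at h4
    exact_mod_cast h4
  have h6 : S c = (Set.ncard {x | c x = true} : ℤ) - Set.ncard {x | c x = false} := by
    have h2 : Set.ncard {x | c x = true} = (Finset.univ.filter (fun x => c x = true)).card := by
      rw [← Set.ncard_coe_finset]; congr 1; ext x; simp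
    have h3 : Set.ncard {x | c x = false} = (Finset.univ.filter (fun x => ¬ c x = true)).card := by
      rw [← Set.ncard_coe_finset]; congr 1; ext x; simp
    rw [h2, h3]
    unfold S
    rw [← Finset.sum_filter_add_sum_filter_not Finset.univ (fun x => c x = true)]
    have h7 : ∑ x ∈ Finset.univ.filter (fun x => c x = true), sg (c x) =
        ∑ x ∈ Finset.univ.filter (fun x => c x = true), 1 := by
      apply Finset.sum_congr rfl
      intro x hx
      rw [(Finset.mem_filter.mp hx).2]; rfl
    have h8 : ∑ x ∈ Finset.univ.filter (fun x => ¬ c x = true), sg (c x) =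
        ∑ x ∈ Finset.univ.filter (fun x => ¬ c x = true), (-1) := by
      apply Finset.sum_congr rfl
      intro x hx
      have := (Finset.mem_filter.mp hx).2
      rw [Bool.not_eq_true] at this
      rw [this]; rfl
    rw [h7, h8]
    simp
    ring
  have h9 := abs_le.mp h
  rw [h6] at h9
  have h10 : ((n ^ d : ℕ) : ℤ) = (n : ℤ) ^ d := by push_cast; rfl
  rw [← h10] at h1
  unfold IsHalving
  omega

lemma HJSet_nonempty {n : ℕ} (hn : 2 ≤ n) : (HJSet n).Nonempty := by
  obtain ⟨ι, hι, h⟩ := Combinatorics.Line.exists_mono_in_high_dimension (Fin n) Bool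
  obtain ⟨l0, _⟩ := h (fun _ => true)
  obtain ⟨i0, _⟩ := l0.proper
  have hcard : 1 ≤ Fintype.card ι := Fintype.card_pos_iff.mpr ⟨i0⟩
  refine ⟨Fintype.card ι, hcard, ?_⟩
  intro c
  set σ : ι ≃ Fin (Fintype.card ι) := Fintype.equivFin ι
  obtain ⟨l, b, hl⟩ := h (fun y => c (fun k => y (σ.symm k)))
  refine ⟨fun j k => l j (σ.symm k), ⟨?_, ?_⟩, b, hl⟩
  · intro k
    rcases hk : l.idxFun (σ.symm k) with _ | a
    · right; left
      intro j
      exact l.apply_none j _ hk
    · left
      intro j j'
      beta_reduce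
      rw [l.apply_some hk, l.apply_some hk]
  · obtain ⟨i, hi⟩ := l.proper
    refine ⟨σ i, ⟨0, by omega⟩, ⟨1, by omega⟩, ?_⟩
    beta_reduce
    rw [σ.symm_apply_apply, l.apply_none _ _ hi, l.apply_none _ _ hi]
    simp

open Pool.HJI in
/-- the transfer: halving colourings without monochromatic lines for all dimensions up to `HJ(n)` -/
lemma transfer {n D : ℕ} (hn : 2 ≤ n) (h1 : 1 ≤ D) (h2 : D ≤ HJ n) :
    ∃ c : (Fin D → Fin (n + 1)) → Bool, IsHalving c ∧ ¬ HasMono c := by
  obtain ⟨d, rfl⟩ : ∃ d, D = d + 1 := ⟨D - 1, by omega⟩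
  -- a proper colouring of `[n]^d`
  have hex : ∃ c : (Fin d → Fin n) → Bool, Proper c := by
    rcases Nat.eq_zero_or_pos d with rfl | hd
    · refine ⟨fun _ => true, ?_⟩
      intro P hP
      obtain ⟨i, _⟩ := hP.2
      exact i.elim0
    · have h3 : d ∉ HJSet n := Nat.notMem_of_lt_sInf (by unfold HJ at h2; omega)
      have h4 : ¬ ∀ c : (Fin d → Fin n) → Bool, HasMono c := fun h => h3 ⟨hd, h⟩
      push Not at h4
      obtain ⟨c, hc⟩ := h4
      exact ⟨c, (not_mono_iff (by omega) c).mp hc⟩
  rcases Nat.even_or_odd' n with ⟨B, hB | hB⟩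
  · subst hB
    obtain ⟨C, h3, h4⟩ := odd_main (B := B) (by omega) hex
    exact ⟨C, halving_of_abs C (by rw [h4]; simp), (not_mono_iff (by omega) C).mpr h3⟩
  · subst hB
    obtain ⟨C, h3, h4⟩ := even_main (B := B) (by omega) hex
    exact ⟨C, halving_of_abs C (by rw [h4]; simp), (not_mono_iff (by omega) C).mpr h3⟩

/-- For every `n ≥ 2` the least elements `HJ(n)` and `HJ_{1/2}(n)` exist and
`HJ_{1/2}(n) ≤ HJ(n) < HJ_{1/2}(n+1)`. -/
theorem result (n : ℕ) (hn : 2 ≤ n) :
    (IsLeast (HJSet n) (HJ n) ∧ IsLeast (HJHalfSet n) (HJHalf n)) ∧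
      HJHalf n ≤ HJ n ∧ HJ n < HJHalf (n + 1) := by
  have hsub : ∀ m, HJSet m ⊆ HJHalfSet m := fun m d hd => ⟨hd.1, fun c _ => hd.2 c⟩
  have hne : ∀ m, 2 ≤ m → (HJHalfSet m).Nonempty := fun m hm => (HJSet_nonempty hm).mono (hsub m)
  have hmem : HJ n ∈ HJSet n := Nat.sInf_mem (HJSet_nonempty hn)
  have hmem' : HJHalf n ∈ HJHalfSet n := Nat.sInf_mem (hne n hn)
  refine ⟨⟨⟨hmem, fun d hd => Nat.sInf_le hd⟩, ⟨hmem', fun d hd => Nat.sInf_le hd⟩⟩, ?_, ?_⟩
  · exact Nat.sInf_le (hsub n hmem)
  · by_contra hcon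
    push Not at hcon
    have hmem2 : HJHalf (n + 1) ∈ HJHalfSet (n + 1) := Nat.sInf_mem (hne (n + 1) (by omega))
    obtain ⟨c, hc1, hc2⟩ := transfer hn hmem2.1 hcon
    exact hc2 (hmem2.2 c hc1)

end Pool.Agent.Results.MP_62b8ba_co.HalvingInterlace
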