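import Pool.Agent.HJF.Main
import Pool.Agent.HJF.Data7

set_option autoImplicit false

/-!
# The halving Hales–Jewett number of 4 is at least 8

For every `1 ≤ d ≤ 7` there is a 2-colouring of `[4]^d` which changes under the reversal of all
coordinates (so it is halving) and has no monochromatic geometric line. The colourings are given
by the binary digits of the numbers `N1, …, N7`; the kernel checks all geometric lines.

`IsHalving`, `HasMono`, `HJSet`, `HJHalfSet`, `HJ`, `HJHalf` are the definitions of `HalvingInterlace`.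
-/

namespace Pool.Agent.Results.MP_62b8ba_co.HalvingFour

open Pool.Agent.HJF Pool.Agent.Results.MP_62b8ba_co.HalvingInterlace

/-- **`HJ_{1/2}(4) ≥ 8`**, hence `HJ(4) ≥ 8`. -/
theorem result : 8 ≤ HJHalf 4 ∧ HJHalf 4 ≤ HJ 4 := by
  have h := HalvingInterlace.result 4 (by norm_num)
  refine ⟨?_, h.2.1⟩
  have hm : HJHalf 4 ∈ HJHalfSet 4 := h.1.2.1
  have h1 : 1 ≤ HJHalf 4 := hm.1
  by_contra hcon
  push Not at hcon
  generalize HJHalf 4 = d at hm h1 hcon
  interval_cases d
  · exact not_mem chk1 anti1 hm
  · exact not_mem chk2 anti2 hm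
  · exact not_mem chk3 anti3 hm
  · exact not_mem chk4 anti4 hm
  · exact not_mem chk5 anti5 hm
  · exact not_mem chk6 anti6 hm
  · exact not_mem chk7 anti7 hm

end Pool.Agent.Results.MP_62b8ba_co.HalvingFour
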